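import Pool.Agent.Y33.RN.Stm
import Pool.Agent.Y186.SM.Chf

set_option autoImplicit false

/-!
# Project RN (helper33), job CHF2 (helper409): adapted from `Pool/Agent/Y186/SM/Chf.lean`
-/

namespace Pool.Agent.Y409.RN.Chf2

open Pool.Agent.TH54.BU Pool.Agent.Y33.SM Pool.Agent.Y186.SM Pool.Agent.Y33.RN
open Pool.Agent.Y186.SM.Chf (Vx_even Vx_odd btw_k chain)

theorem t (hA : S_ACY) : S_CHF2 := by
  intro G _ w h c h' e k hw hs hc hs' hn hk C E
  obtain ⟨O, hO⟩ := exists_Ow hA w hw hs hs' hn hk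
  refine ⟨4 * O + 24 + 14 * e + 2 * E + 2 * C + 10, ?_⟩
  intro κ A hBA hκA u x0 hz hu x v hx hnear g p q
  set A1 := A + O + 6 + 2 * e with hA1
  have hκ : 2 * C + 2 * e + A1 + 1 ≤ κ := by omega
  obtain ⟨j, j', hj1, hj2, hj3, hj4, hx0, -⟩ := hz.ex
  -- consecutive vertices
  have hst : ∀ (g : G) (a : ℤ), (k (g * Vx u x0 a) - k (g * Vx u x0 (a + 1))).natAbs ≤ A1 := by
    intro g a
    rcases Int.even_or_odd' a with ⟨b, rfl | rfl⟩
    · rw [Vx_even, Vx_odd, ← mul_assoc]
      have := hu (g * x0 ^ b)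
      omega
    · rw [show (2 * b + 1 + 1 : ℤ) = 2 * (b + 1) by ring, Vx_even, Vx_odd]
      have l1 := k_lip hk (g * (x0 ^ b * u)) (g * x0 ^ b * u * c ^ j * h' ^ (0 : ℤ))
      have l2 := hO (g * x0 ^ b * u * c ^ j) 0 ((2 * κ : ℕ) : ℤ)
      have l3 := k_lip hk (g * x0 ^ b * u * c ^ j * h' ^ ((2 * κ : ℕ) : ℤ)) (g * x0 ^ (b + 1))
      have e1 : w.d (g * (x0 ^ b * u)) (g * x0 ^ b * u * c ^ j * h' ^ (0 : ℤ)) = j := by
        have : w.d (g * (x0 ^ b * u)) (g * x0 ^ b * u * c ^ j * h' ^ (0 : ℤ)) =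
            w.len (c ^ j) := by
          unfold GH.d; congr 1; group
        rw [this, hc]
      have e2 : w.d (g * x0 ^ b * u * c ^ j * h' ^ ((2 * κ : ℕ) : ℤ)) (g * x0 ^ (b + 1)) =
          j' := by
        have : w.d (g * x0 ^ b * u * c ^ j * h' ^ ((2 * κ : ℕ) : ℤ)) (g * x0 ^ (b + 1)) =
            w.len (c ^ j') := by
          unfold GH.d; congr 1
          rw [zpow_natCast, zpow_add_one]
          have : x0 ^ b * x0 = x0 ^ b * (u * c ^ j * h' ^ (2 * κ) * c ^ j') := by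
            rw [← hx0]
          rw [this]
          group
        rw [this, hc]
      omega
  have hd : ∀ a : ℤ, κ ≤ w.d (Vx u x0 a) (Vx u x0 (a + 1)) + C := by
    intro a
    rcases Int.even_or_odd' a with ⟨b, rfl | rfl⟩
    · rw [Vx_even, Vx_odd]
      have : w.d (x0 ^ b) (x0 ^ b * u) = w.len u := by
        unfold GH.d; congr 1; group
      have := hz.hu
      omega
    · rw [show (2 * b + 1 + 1 : ℤ) = 2 * (b + 1) by ring, Vx_even, Vx_odd]
      have : w.d (x0 ^ b * u) (x0 ^ (b + 1)) = w.len (u⁻¹ * x0) := by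
        unfold GH.d; congr 1
        rw [zpow_add_one]; group
      have := hz.len
      omega
  have hch : ∀ (g : G) (a b : ℤ), (k (g * Vx u x0 a) - k (g * Vx u x0 b)).natAbs ≤
      2 * e + 2 * A1 := by
    intro g a b
    have key := chain hs hk hκ (fun a => g * Vx u x0 a) (by
      intro a b c hab hbc
      change w.d (g * Vx u x0 a) (g * Vx u x0 b) + w.d (g * Vx u x0 b) (g * Vx u x0 c) ≤
        w.d (g * Vx u x0 a) (g * Vx u x0 c) + C
      rw [w.d_mul, w.d_mul, w.d_mul]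
      exact hz.btw a b c hab hbc) (by
      intro a
      change κ ≤ w.d (g * Vx u x0 a) (g * Vx u x0 (a + 1)) + C
      rw [w.d_mul]
      exact hd a) (fun a => hst g a)
    rcases le_total a b with hab | hab
    · obtain ⟨N, hN⟩ := Int.eq_ofNat_of_zero_le (sub_nonneg.2 hab)
      have := key a N
      rwa [show a + (N : ℤ) = b by omega] at this
    · obtain ⟨N, hN⟩ := Int.eq_ofNat_of_zero_le (sub_nonneg.2 hab)
      have := key b N
      rw [show b + (N : ℤ) = a by omega] at this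
      omega
  obtain ⟨a, ha⟩ := hnear p
  obtain ⟨b, hb⟩ := hnear q
  set g' := g * v⁻¹ with hg'
  have ep : g * x ^ p = g' * (v * x ^ p) := by rw [hg']; group
  have eq' : g * x ^ q = g' * (v * x ^ q) := by rw [hg']; group
  rw [ep, eq']
  have i1 := (btw_k hs hk (P := g' * Vx u x0 a) (Q := g' * Vx u x0 (a + 1))
    (y := g' * (v * x ^ p)) (E := E) (by simp only [w.d_mul]; exact ha)).1
  have i2 := (btw_k hs hk (P := g' * Vx u x0 b) (Q := g' * Vx u x0 (b + 1))
    (y := g' * (v * x ^ q)) (E := E) (by simp only [w.d_mul]; exact hb)).1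
  have i3 := hch g' a b
  have i4 := hst g' a
  have i5 := hst g' b
  omega

end Pool.Agent.Y409.RN.Chf2
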